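import Pool.Agent.H.MP_44c8f1_al.A
import Pool.Agent.H.MP_4f47f1_al.C

set_option autoImplicit false

namespace Pool.Agent.H.MP_58728c_al

open Function Pointwise Pool.Agent.H.MP_4f47f1_al Pool.Agent.H.MP_44c8f1_al

def res (H : Cl) (G : Type) [Group G] : Subgroup G := sInf {N | ∃ _ : N.Normal, H (G ⧸ N)}

instance res_normal (H : Cl) (G : Type) [Group G] : (res H G).Normal := ⟨fun n hn g => by
  rw [res, Subgroup.mem_sInf] at hn ⊢
  rintro N ⟨hN, h⟩
  exact hN.conj_mem _ (hn N ⟨hN, h⟩) g⟩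

@[ext] structure NF where
  mem : Cl
  ok : Phi mem
  ne : mem PUnit

lemma NF.triv (H : NF) (G : Type) [Group G] [Subsingleton G] : H.mem G := H.ok.triv H.ne

lemma res_le (H : NF) {G Y : Type} [Group G] [Group Y] (f : G →* Y) (hf : Surjective f)
    (h : H.mem Y) : res H.mem G ≤ f.ker :=
  sInf_le ⟨inferInstance, H.ok.iso (QuotientGroup.quotientKerEquivOfSurjective f hf).symm h⟩

lemma res_mem (H : NF) (G : Type) [Group G] [Finite G] : H.mem (G ⧸ res H.mem G) := by
  obtain ⟨N, ⟨hN, h⟩, hmin⟩ := (wellFounded_lt (α := Subgroup G)).has_min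
    {N : Subgroup G | ∃ _ : N.Normal, H.mem (G ⧸ N)}
    ⟨⊤, inferInstance, have := QuotientGroup.subsingleton_quotient_top (G := G); H.triv _⟩
  have : N ≤ res H.mem G := by
    refine le_sInf ?_
    rintro L ⟨hL, h'⟩
    have h2 : H.mem (G ⧸ (N ⊓ L)) := H.ok.qr (QuotientGroup.mk' N) (QuotientGroup.mk' L)
      (QuotientGroup.mk' _) (QuotientGroup.mk'_surjective _) (QuotientGroup.mk'_surjective _)
      (QuotientGroup.mk'_surjective _) h h' (by simp [QuotientGroup.ker_mk'])
    by_contra hle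
    exact hmin (N ⊓ L) ⟨inferInstance, h2⟩ (lt_of_le_of_ne inf_le_left fun h => hle (inf_eq_left.1 h))
  exact H.ok.qr (QuotientGroup.mk' N) (QuotientGroup.mk' N)
      (QuotientGroup.mk' _) (QuotientGroup.mk'_surjective _) (QuotientGroup.mk'_surjective _)
      (QuotientGroup.mk'_surjective _) h h (by simpa [QuotientGroup.ker_mk'] using this)

lemma mem_of_res_le (H : NF) {G Y : Type} [Group G] [Group Y] [Finite G] (f : G →* Y)
    (hf : Surjective f) (h : res H.mem G ≤ f.ker) : H.mem Y :=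
  H.ok.2.1 _ _ (QuotientGroup.lift _ f h) (lift_surj _ _ _ hf) (res_mem H G)

lemma mem_of_res_bot (H : NF) {G : Type} [Group G] [Finite G] (h : res H.mem G = ⊥) : H.mem G :=
  mem_of_res_le H (MonoidHom.id G) surjective_id (h ▸ bot_le)

lemma res_bot (H : NF) {G : Type} [Group G] (h : H.mem G) : res H.mem G = ⊥ :=
  eq_bot_iff.2 (res_le H (MonoidHom.id G) surjective_id h)

lemma res_map (H : NF) {G Y : Type} [Group G] [Group Y] [Finite G] (f : G →* Y)
    (hf : Surjective f) : (res H.mem G).map f = res H.mem Y := by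
  have := Finite.of_surjective f hf
  apply le_antisymm
  · rw [Subgroup.map_le_iff_le_comap]
    have := res_le H ((QuotientGroup.mk' (res H.mem Y)).comp f)
      ((QuotientGroup.mk'_surjective _).comp hf) (res_mem H Y)
    rwa [← MonoidHom.comap_ker, QuotientGroup.ker_mk'] at this
  · have hn : ((res H.mem G).map f).Normal := Subgroup.Normal.map inferInstance f hf
    have := res_le H (QuotientGroup.mk' ((res H.mem G).map f)) (QuotientGroup.mk'_surjective _)
      (mem_of_res_le H ((QuotientGroup.mk' ((res H.mem G).map f)).comp f)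
        ((QuotientGroup.mk'_surjective _).comp hf) (by
          rw [← MonoidHom.comap_ker, QuotientGroup.ker_mk']; exact Subgroup.le_comap_map _ _))
    rwa [QuotientGroup.ker_mk'] at this

def resHom (H : NF) {G Y : Type} [Group G] [Group Y] [Finite G] (f : G →* Y)
    (hf : Surjective f) : res H.mem G →* res H.mem Y :=
  (f.comp (res H.mem G).subtype).codRestrict _ (fun x => by
    rw [← res_map H f hf]; exact Subgroup.mem_map_of_mem f x.2)

lemma resHom_surj (H : NF) {G Y : Type} [Group G] [Group Y] [Finite G] (f : G →* Y)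
    (hf : Surjective f) : Surjective (resHom H f hf) := by
  rintro ⟨y, hy⟩
  rw [← res_map H f hf] at hy
  obtain ⟨x, hx, rfl⟩ := hy
  exact ⟨⟨x, hx⟩, rfl⟩

lemma mem_resHom_ker (H : NF) {G Y : Type} [Group G] [Group Y] [Finite G] (f : G →* Y)
    (hf : Surjective f) (x : res H.mem G) : x ∈ (resHom H f hf).ker ↔ f x = 1 := by
  rw [MonoidHom.mem_ker, Subtype.ext_iff]; rfl

instance : Mul NF := ⟨fun A B =>
  { mem := fun G _ => Finite G ∧ A.mem (res B.mem G)
    ok := by
      refine ⟨fun G _ h => h.1, ?_, ?_⟩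
      · rintro G Y _ _ f hf ⟨_, h⟩
        exact ⟨Finite.of_surjective f hf, A.ok.2.1 _ _ _ (resHom_surj B f hf) h⟩
      · rintro G _ N1 N2 _ _ hb ⟨f1, h1⟩ ⟨f2, h2⟩
        have := phi_fin.2.2 G N1 N2 hb f1 f2
        refine ⟨this, A.ok.qr _ _ (MonoidHom.id _)
          (resHom_surj B (QuotientGroup.mk' N1) (QuotientGroup.mk'_surjective _))
          (resHom_surj B (QuotientGroup.mk' N2) (QuotientGroup.mk'_surjective _)) surjective_id
          h1 h2 ?_⟩
        rintro x ⟨a, b⟩
        have a' := (mem_resHom_ker _ _ _ _).1 a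
        have b' := (mem_resHom_ker _ _ _ _).1 b
        have : (x : G) ∈ N1 ⊓ N2 :=
          ⟨(QuotientGroup.eq_one_iff _).1 a', (QuotientGroup.eq_one_iff _).1 b'⟩
        rw [hb] at this
        exact Subtype.ext this
    ne := ⟨inferInstance, A.triv _⟩ }⟩

lemma mem_mul {A B : NF} {G : Type} [Group G] :
    (A * B).mem G ↔ Finite G ∧ A.mem (res B.mem G) := Iff.rfl

instance : One NF := ⟨⟨O.mem, O.ok, (inferInstance : Subsingleton PUnit)⟩⟩

lemma mem_one {G : Type} [Group G] : (1 : NF).mem G ↔ Subsingleton G := Iff.rfl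

lemma res_mul (B C : NF) (G : Type) [Group G] [Finite G] :
    res (B * C).mem G = (res B.mem (res C.mem G)).map (res C.mem G).subtype := by
  apply le_antisymm
  · have hn : ((res B.mem (res C.mem G)).map (res C.mem G).subtype).Normal := ⟨by
      rintro _ ⟨x, hx, rfl⟩ g
      let φ : res C.mem G ≃* res C.mem G := MulAut.conjNormal g
      have := res_map B φ.toMonoidHom φ.surjective
      refine ⟨φ x, ?_, rfl⟩
      rw [← this]; exact Subgroup.mem_map_of_mem _ hx⟩
    have := res_le (B * C) (QuotientGroup.mk' ((res B.mem (res C.mem G)).map (res C.mem G).subtype))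
      (QuotientGroup.mk'_surjective _) ⟨inferInstance, mem_of_res_le B _
        (resHom_surj C _ (QuotientGroup.mk'_surjective _)) (fun x hx => by
          rw [mem_resHom_ker]
          exact (QuotientGroup.eq_one_iff _).2 (Subgroup.mem_map_of_mem _ hx))⟩
    rwa [QuotientGroup.ker_mk'] at this
  · rintro _ ⟨x, hx, rfl⟩
    have := res_le B _ (resHom_surj C (QuotientGroup.mk' (res (B * C).mem G))
      (QuotientGroup.mk'_surjective _)) (res_mem (B * C) G).2 hx
    rw [mem_resHom_ker] at this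
    exact (QuotientGroup.eq_one_iff _).1 this

lemma NF.eq_of {A B : NF} (h : ∀ (G : Type) [Group G], A.mem G ↔ B.mem G) : A = B := by
  ext1; funext G inst; exact propext (h G)

instance : Monoid NF where
  mul_assoc A B C := NF.eq_of fun G _ => by
    constructor
    · rintro ⟨_, _, h⟩
      refine ⟨inferInstance, ?_⟩
      rw [res_mul]
      exact A.ok.iso (Subgroup.equivMapOfInjective _ _ (Subgroup.subtype_injective _)) h
    · rintro ⟨_, h⟩
      rw [res_mul] at h
      exact ⟨inferInstance, inferInstance,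
        A.ok.iso (Subgroup.equivMapOfInjective _ _ (Subgroup.subtype_injective _)).symm h⟩
  one_mul A := NF.eq_of fun G _ => by
    constructor
    · rintro ⟨_, h⟩
      have : Subsingleton (res A.mem G) := h
      exact mem_of_res_bot A (Subgroup.eq_bot_of_subsingleton _)
    · intro h
      refine ⟨A.ok.1 G h, ?_⟩
      rw [res_bot A h]
      exact (inferInstance : Subsingleton (⊥ : Subgroup G))
  mul_one A := NF.eq_of fun G _ => by
    have : res (1 : NF).mem G = ⊤ := by
      rw [eq_top_iff]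
      refine le_sInf ?_
      rintro N ⟨_, h⟩ x _
      have : Subsingleton (G ⧸ N) := h
      exact (QuotientGroup.eq_one_iff x).1 (Subsingleton.elim _ _)
    rw [mem_mul, this]
    exact ⟨fun h => A.ok.iso Subgroup.topEquiv h.2,
      fun h => ⟨A.ok.1 G h, A.ok.iso Subgroup.topEquiv.symm h⟩⟩

def Le (A B : NF) : Prop := ∀ (G : Type) [Group G], A.mem G → B.mem G

lemma le_mul (A B : NF) : Le B (A * B) := fun G _ h => ⟨B.ok.1 G h, by
  rw [res_bot B h]; exact A.triv _⟩

lemma simple_quot {T : Type} [Group T] [Finite T] (R : Subgroup T) [hR : R.Normal] (h : R ≠ ⊤) :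
    ∃ (S : Type) (_ : Group S) (f : T →* S), IsSimpleGroup S ∧ Surjective f ∧ R ≤ f.ker := by
  obtain ⟨N, ⟨hN, h1, h2⟩, hmax⟩ := (wellFounded_gt (α := Subgroup T)).has_min
    {N : Subgroup T | N.Normal ∧ R ≤ N ∧ N ≠ ⊤} ⟨R, hR, le_rfl, h⟩
  refine ⟨T ⧸ N, _, QuotientGroup.mk' N, ?_, QuotientGroup.mk'_surjective _, by
    rwa [QuotientGroup.ker_mk']⟩
  have : Nontrivial (T ⧸ N) := by
    obtain ⟨g, hg⟩ : ∃ g, g ∉ N := by
      by_contra hc; push Not at hc; exact h2 (eq_top_iff.2 fun x _ => hc x)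
    exact ⟨(g : T ⧸ N), 1, fun hh => hg ((QuotientGroup.eq_one_iff g).1 hh)⟩
  refine ⟨fun L hL => ?_⟩
  have hle : N ≤ L.comap (QuotientGroup.mk' N) := QuotientGroup.le_comap_mk' N L
  by_cases ht : L.comap (QuotientGroup.mk' N) = ⊤
  · right
    rw [eq_top_iff]
    intro x _
    obtain ⟨x, rfl⟩ := QuotientGroup.mk_surjective x
    exact (ht ▸ Subgroup.mem_top x : x ∈ L.comap (QuotientGroup.mk' N))
  · left
    have := hmax _ ⟨hL.comap _, h1.trans hle, ht⟩
    have he : L.comap (QuotientGroup.mk' N) = N := by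
      by_contra hne; exact this (lt_of_le_of_ne hle (Ne.symm hne))
    rw [eq_bot_iff]
    intro x hx
    obtain ⟨x, rfl⟩ := QuotientGroup.mk_surjective x
    exact (QuotientGroup.eq_one_iff x).2 (he ▸ hx : x ∈ N)

lemma exists_simple (A : NF) (h : A ≠ 1) : ∃ (S : Type) (_ : Group S), IsSimpleGroup S ∧ A.mem S := by
  obtain ⟨T, _, h1, h2⟩ : ∃ (T : Type) (_ : Group T), A.mem T ∧ ¬ Subsingleton T := by
    by_contra hc
    push Not at hc
    exact h (NF.eq_of fun G _ => ⟨fun hG => hc G _ hG, fun hG => have : Subsingleton G := hG; A.triv G⟩)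
  have := A.ok.1 T h1
  have := not_subsingleton_iff_nontrivial.1 h2
  obtain ⟨S, _, f, a, b, -⟩ := simple_quot (⊥ : Subgroup T) bot_ne_top
  exact ⟨S, _, a, A.ok.2.1 _ _ f b h1⟩

abbrev Wr (T C : Type) [Group T] [Group C] := RegularWreathProduct T C

def wmap {T U : Type} [Group T] [Group U] (C : Type) [Group C] (f : T →* U) : Wr T C →* Wr U C :=
  MonoidHom.mk' (fun w => ⟨fun q => f (w.left q), w.right⟩) (fun a b => by ext <;> simp)

lemma wmap_surj {T U : Type} [Group T] [Group U] (C : Type) [Group C] (f : T →* U)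
    (hf : Surjective f) : Surjective (wmap C f) := by
  rintro ⟨l, r⟩
  choose g hg using fun q => hf (l q)
  exact ⟨⟨g, r⟩, by ext <;> simp [wmap, hg]⟩

lemma right_surj (T C : Type) [Group T] [Group C] :
    Surjective (RegularWreathProduct.rightHom : Wr T C →* C) := fun c => ⟨⟨1, c⟩, rfl⟩

def ev {T C : Type} [Group T] [Group C] (R : Subgroup (Wr T C)) (h : ∀ x ∈ R, x.right = 1)
    (q : C) : R →* T :=
  MonoidHom.mk' (fun w => w.1.left q) (fun a b => by simp [h a.1 a.2])

lemma wr0 {T C : Type} [Group T] [Group C] (R : Subgroup (Wr T C)) [hR : R.Normal]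
    (h : ∀ x ∈ R, x.right = 1) : (ev R h 1).range.Normal ∧ ∀ q, (ev R h q).range = (ev R h 1).range := by
  have key : ∀ q q', (ev R h q).range ≤ (ev R h q').range := by
    rintro q q' _ ⟨x, rfl⟩
    refine ⟨⟨_, hR.conj_mem _ x.2 (RegularWreathProduct.inl (q' * q⁻¹))⟩, ?_⟩
    simp [ev]
  refine ⟨⟨?_⟩, fun q => le_antisymm (key _ _) (key _ _)⟩
  rintro _ ⟨x, rfl⟩ t
  refine ⟨⟨_, hR.conj_mem _ x.2 ⟨fun _ => t, 1⟩⟩, ?_⟩
  simp [ev]

lemma res_right (B : NF) (T : Type) {C : Type} [Group T] [Group C] (hC : B.mem C) :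
    ∀ x ∈ res B.mem (Wr T C), x.right = 1 := fun _ hx =>
  res_le B _ (right_surj T C) hC hx

lemma wr_surj (B : NF) (T : Type) {C : Type} [Group T] [Group C] [Finite T] (hC : B.mem C)
    (h : ∀ (S : Type) [Group S] (f : T →* S), IsSimpleGroup S → Surjective f → ¬ B.mem (Wr S C))
    (q : C) : Surjective (ev _ (res_right B T hC) q) := by
  have := B.ok.1 C hC
  obtain ⟨h1, h2⟩ := wr0 _ (res_right B T hC)
  rw [← MonoidHom.range_eq_top, h2]
  by_contra hne
  obtain ⟨S, _, f, a, b, c⟩ := simple_quot _ hne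
  refine h S f a b (mem_of_res_le B _ (wmap_surj C f b) fun x hx => ?_)
  rw [MonoidHom.mem_ker]
  ext q
  · have : x.left q ∈ (ev _ (res_right B T hC) 1).range := h2 q ▸ ⟨⟨x, hx⟩, rfl⟩
    simpa [wmap] using c this
  · simpa [wmap] using res_right B T hC x hx

lemma w1 (A B : NF) {T C : Type} [Group T] [Group C] (hT : A.mem T) (hC : B.mem C)
    (h : ∀ (S : Type) [Group S] (f : T →* S), IsSimpleGroup S → Surjective f → ¬ B.mem (Wr S C)) :
    (A * B).mem (Wr T C) := by
  have := B.ok.1 C hC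
  have := A.ok.1 T hT
  refine ⟨inferInstance, mem_of_res_bot A (eq_bot_iff.2 fun x hx => ?_)⟩
  rw [Subgroup.mem_bot]
  ext q
  · exact res_le A _ (wr_surj B T hC h q) hT hx
  · exact res_right B T hC _ x.2

lemma w2 (A B : NF) {T C : Type} [Group T] [Group C] [Finite T] (hT : (A * B).mem (Wr T C))
    (hC : B.mem C)
    (h : ∀ (S : Type) [Group S] (f : T →* S), IsSimpleGroup S → Surjective f → ¬ B.mem (Wr S C)) :
    A.mem T := A.ok.2.1 _ _ _ (wr_surj B T hC h 1) hT.2

lemma w3 (A B : NF) {T C : Type} [Group T] [Group C] (hs : IsSimpleGroup T) (hT : A.mem T)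
    (hC : B.mem C) : (A * B).mem (Wr T C) := by
  by_cases h : B.mem (Wr T C)
  · exact le_mul A B _ h
  refine w1 A B hT hC fun S _ f a b c => h ?_
  have : Injective f := by
    rcases hs.eq_bot_or_eq_top_of_normal f.ker inferInstance with h1 | h1
    · exact (MonoidHom.ker_eq_bot_iff f).1 h1
    · exfalso
      obtain ⟨y, hy⟩ := exists_ne (1 : S)
      obtain ⟨x, rfl⟩ := b y
      exact hy (h1 ▸ Subgroup.mem_top x : x ∈ f.ker)
  exact B.ok.2.1 _ _ _ (wmap_surj C (MulEquiv.ofBijective f ⟨this, b⟩).symm.toMonoidHom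
    (MulEquiv.surjective _)) c

end Pool.Agent.H.MP_58728c_al
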