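import Pool.Agent.H.MP_58728c_al.A

set_option autoImplicit false

namespace Pool.Agent.H.MP_58728c_al

open Function Pointwise Pool.Agent.H.MP_4f47f1_al Pool.Agent.H.MP_44c8f1_al

def YY (e : ℕ) : Cl := fun G _ => Finite G ∧ ∀ p : ℕ, p.Prime → ∃ P : Subgroup G, P.Normal ∧
  IsPGroup p P ∧ ∀ (t : G) (k : ℕ), t ^ p ^ k = 1 → t ^ e ∈ P

lemma lift_pelt {G Y : Type} [Group G] [Group Y] [Finite G] (f : G →* Y) (hf : Surjective f)
    (p : ℕ) (hp : p.Prime) (y : Y) (k : ℕ) (hy : y ^ p ^ k = 1) :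
    ∃ (x : G) (j : ℕ), f x = y ∧ x ^ p ^ j = 1 := by
  obtain ⟨x, rfl⟩ := hf y
  have h0 : orderOf x ≠ 0 := (orderOf_pos x).ne'
  obtain ⟨j, m, hm, hx⟩ := Nat.exists_eq_pow_mul_and_not_dvd h0 p hp.ne_one
  have hc : Nat.Coprime m (p ^ k) := ((hp.coprime_iff_not_dvd.2 hm).symm).pow_right k
  obtain ⟨u, hu⟩ : ∃ u : ℕ, m * u ≡ 1 [MOD p ^ k] := by
    obtain ⟨u, hu⟩ := Nat.exists_mul_mod_eq_of_coprime 1 hc (pow_ne_zero _ hp.ne_zero)
    exact ⟨u, hu.2⟩
  refine ⟨x ^ (m * u), j, ?_, ?_⟩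
  · rw [map_pow]
    conv_rhs => rw [← pow_one (f x)]
    exact pow_eq_pow_of_modEq hu hy
  · rw [← pow_mul, show m * u * p ^ j = (p ^ j * m) * u by ring, pow_mul, ← hx, pow_orderOf_eq_one,
      one_pow]

lemma phi_YY (e : ℕ) : Phi (YY e) := by
  refine ⟨fun G _ h => h.1, ?_, ?_⟩
  · rintro G Y _ _ f hf ⟨_, h⟩
    refine ⟨Finite.of_surjective f hf, fun p hp => ?_⟩
    obtain ⟨P, h1, h2, h3⟩ := h p hp
    refine ⟨P.map f, h1.map f hf, h2.map f, fun y k hy => ?_⟩
    obtain ⟨x, j, rfl, hx⟩ := lift_pelt f hf p hp y k hy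
    rw [← map_pow]; exact Subgroup.mem_map_of_mem f (h3 x j hx)
  · rintro G _ N1 N2 _ _ hb ⟨f1, h1⟩ ⟨f2, h2⟩
    refine ⟨phi_fin.2.2 G N1 N2 hb f1 f2, fun p hp => ?_⟩
    obtain ⟨P, a1, a2, a3⟩ := h1 p hp
    obtain ⟨Q, b1, b2, b3⟩ := h2 p hp
    refine ⟨P.comap (QuotientGroup.mk' N1) ⊓ Q.comap (QuotientGroup.mk' N2), inferInstance, ?_, ?_⟩
    · rintro ⟨x, hx1, hx2⟩
      obtain ⟨i, hi⟩ := a2 ⟨_, hx1⟩
      obtain ⟨j, hj⟩ := b2 ⟨_, hx2⟩
      have hi' : ((x : G ⧸ N1)) ^ p ^ i = 1 := congrArg Subtype.val hi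
      have hj' : ((x : G ⧸ N2)) ^ p ^ j = 1 := congrArg Subtype.val hj
      refine ⟨i + j, Subtype.ext ?_⟩
      have : x ^ p ^ (i + j) ∈ N1 ⊓ N2 := by
        constructor
        · apply (QuotientGroup.eq_one_iff _).1
          rw [QuotientGroup.mk_pow, pow_add, pow_mul, hi', one_pow]
        · apply (QuotientGroup.eq_one_iff _).1
          rw [QuotientGroup.mk_pow, pow_add, mul_comm, pow_mul, hj', one_pow]
      rw [hb] at this
      exact this
    · intro t k ht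
      constructor
      · exact a3 (t : G ⧸ N1) k (by rw [← QuotientGroup.mk_pow, ht]; rfl)
      · exact b3 (t : G ⧸ N2) k (by rw [← QuotientGroup.mk_pow, ht]; rfl)

lemma sat_YY (e : ℕ) : Sat (YY e) := by
  rintro G _ _ ⟨_, h⟩
  refine ⟨inferInstance, fun p hp => ?_⟩
  have := Fact.mk hp
  obtain ⟨Pb, a1, a2, a3⟩ := h p hp
  set L := Pb.comap (QuotientGroup.mk' (frattini G)) with hL
  have hLn : L.Normal := a1.comap _
  obtain ⟨P⟩ : Nonempty (Sylow p L) := inferInstance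
  have hFL : frattini G ≤ L := QuotientGroup.le_comap_mk' _ _
  let φ : L →* Pb := ((QuotientGroup.mk' (frattini G)).comp L.subtype).codRestrict Pb (fun x => x.2)
  have sφ : Surjective φ := by
    rintro ⟨y, hy⟩
    obtain ⟨x, rfl⟩ := QuotientGroup.mk_surjective y
    exact ⟨⟨x, hy⟩, rfl⟩
  have htop : (P : Subgroup L).map φ = ⊤ := by
    have h1 := (P.mapSurjective sφ).is_maximal' (Q := ⊤) (a2.to_subgroup ⊤) le_top
    exact h1.symm
  have hle : L ≤ (P : Subgroup L).map L.subtype ⊔ frattini G := by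
    intro x hx
    obtain ⟨y, hy, hxy⟩ : φ ⟨x, hx⟩ ∈ (P : Subgroup L).map φ := htop ▸ Subgroup.mem_top _
    have h1 : ((y : G) : G ⧸ frattini G) = x := congrArg Subtype.val hxy
    have h2 : x = y * ((y : G)⁻¹ * x) := by group
    rw [h2]
    exact Subgroup.mul_mem_sup (Subgroup.mem_map_of_mem _ hy) (QuotientGroup.eq.1 h1)
  have h1 := Sylow.normalizer_sup_eq_top P
  have h2 : Subgroup.normalizer (((P : Subgroup L).map L.subtype : Subgroup G) : Set G) = ⊤ := by
    apply frattini_nongenerating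
    rw [eq_top_iff, ← h1]
    exact sup_le le_sup_left (hle.trans (sup_le_sup_right Subgroup.le_normalizer _))
  have h3 : ((P : Subgroup L).map L.subtype).Normal := Subgroup.normalizer_eq_top_iff.1 h2
  refine ⟨_, h3, P.isPGroup'.map _, fun t k ht => ?_⟩
  have h4 : t ^ e ∈ L := a3 (t : G ⧸ frattini G) k (by rw [← QuotientGroup.mk_pow, ht]; rfl)
  have h5 : (P : Subgroup L).Normal := by
    have := h3.comap L.subtype
    rwa [Subgroup.comap_map_eq_self_of_injective (Subgroup.subtype_injective _)] at this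
  have h6 : IsPGroup p (Subgroup.zpowers (⟨t ^ e, h4⟩ : L)) := by
    rintro ⟨_, j, rfl⟩
    refine ⟨k, Subtype.ext (Subtype.ext ?_)⟩
    show ((t ^ e) ^ j) ^ p ^ k = 1
    rw [← zpow_natCast, ← zpow_mul, mul_comm, zpow_mul, zpow_natCast, ← pow_mul, mul_comm, pow_mul,
      ht, one_pow, one_zpow]
  obtain ⟨Q, hQ⟩ := h6.exists_le_sylow
  have := P.unique_of_normal h5
  rw [Subsingleton.elim Q P] at hQ
  exact Subgroup.mem_map_of_mem L.subtype (hQ (Subgroup.mem_zpowers _))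

lemma base_pow {T C : Type} [Group T] [Group C] (w : Wr T C) (h : w.right = 1) (n : ℕ) :
    (w ^ n).left = w.left ^ n ∧ (w ^ n).right = 1 := by
  induction n with
  | zero => simp
  | succ n ih => rw [pow_succ]; constructor <;> simp [ih.1, ih.2, h, pow_succ]

lemma star {e : ℕ} {T C : Type} [Group T] [Group C] (h : YY e (Wr T C)) (p : ℕ) (hp : p.Prime)
    (t : C) (k : ℕ) (h1 : t ^ p ^ k = 1) (h2 : t ^ e ≠ 1) : IsPGroup p T := by
  classical
  obtain ⟨P, a1, a2, a3⟩ := h.2 p hp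
  have b1 := a3 (RegularWreathProduct.inl t) k (by rw [← map_pow, h1, map_one])
  rw [← map_pow] at b1
  intro a
  let b : Wr T C := ⟨Pi.mulSingle 1 a, 1⟩
  have b2 := P.mul_mem (a1.conj_mem _ b1 b) (P.inv_mem b1)
  obtain ⟨j, hj⟩ := a2 ⟨_, b2⟩
  refine ⟨j, ?_⟩
  have b3 := congrArg Subtype.val hj
  simp only [SubgroupClass.coe_pow, OneMemClass.coe_one] at b3
  have b4 := (base_pow (b * RegularWreathProduct.inl (t ^ e) * b⁻¹ *
    (RegularWreathProduct.inl (t ^ e))⁻¹) (by simp [b, -map_pow]) (p ^ j)).1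
  rw [b3] at b4
  have b5 := congrFun b4 1
  simpa [b, -map_pow, Pi.mulSingle_eq_of_ne (inv_ne_one.2 h2)] using b5.symm

def Np (p : ℕ) : NF where
  mem := fun G _ => Finite G ∧ IsPGroup p G
  ok := by
    refine ⟨fun G _ h => h.1, ?_, ?_⟩
    · rintro G Y _ _ f hf ⟨_, h⟩
      exact ⟨Finite.of_surjective f hf, h.of_surjective f hf⟩
    · rintro G _ N1 N2 _ _ hb ⟨f1, h1⟩ ⟨f2, h2⟩
      refine ⟨phi_fin.2.2 G N1 N2 hb f1 f2, fun x => ?_⟩
      obtain ⟨i, hi⟩ := h1 (x : G ⧸ N1)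
      obtain ⟨j, hj⟩ := h2 (x : G ⧸ N2)
      refine ⟨i + j, ?_⟩
      have : x ^ p ^ (i + j) ∈ N1 ⊓ N2 := by
        constructor
        · apply (QuotientGroup.eq_one_iff _).1
          rw [QuotientGroup.mk_pow, pow_add, pow_mul, hi, one_pow]
        · apply (QuotientGroup.eq_one_iff _).1
          rw [QuotientGroup.mk_pow, pow_add, mul_comm, pow_mul, hj, one_pow]
      rw [hb] at this
      exact this
  ne := ⟨inferInstance, fun x => ⟨0, rfl⟩⟩

lemma Np_le_mul (p : ℕ) (B : NF) : Le (Np p) (Np p * B) := fun _ _ h =>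
  ⟨h.1, have := h.1; inferInstance, h.2.to_subgroup _⟩

lemma mul_le_Np {p : ℕ} {A B : NF} (hA : Le A (Np p)) (hB : Le B (Np p)) : Le (A * B) (Np p) := by
  rintro G _ ⟨_, h⟩
  refine ⟨inferInstance, fun x => ?_⟩
  obtain ⟨i, hi⟩ := (hB _ (res_mem B G)).2 (x : G ⧸ _)
  rw [← QuotientGroup.mk_pow, QuotientGroup.eq_one_iff] at hi
  obtain ⟨j, hj⟩ := (hA _ h).2 ⟨_, hi⟩
  exact ⟨i + j, by rw [pow_add, pow_mul]; exact congrArg Subtype.val hj⟩

abbrev Zc (n : ℕ) := Multiplicative (ZMod n)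

lemma Zc_pg (p k : ℕ) (hp : p.Prime) : (Np p).mem (Zc (p ^ k)) := by
  have : NeZero (p ^ k) := ⟨pow_ne_zero _ hp.ne_zero⟩
  exact ⟨inferInstance, IsPGroup.of_card (n := k) (by simp)⟩

lemma Zc_big (p k e : ℕ) (hp : p.Prime) (he : 0 < e) (hk : e ≤ k) :
    ∃ t : Zc (p ^ k), t ^ p ^ k = 1 ∧ t ^ e ≠ 1 := by
  refine ⟨Multiplicative.ofAdd 1, ?_, fun h => ?_⟩
  · rw [← ofAdd_nsmul]; simp
  · rw [← ofAdd_nsmul] at h
    have h2 : ((e : ℕ) : ZMod (p ^ k)) = 0 := by simpa using h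
    rw [ZMod.natCast_eq_zero_iff] at h2
    have h3 := Nat.le_of_dvd he h2
    have h4 : k < p ^ k := Nat.lt_pow_self hp.one_lt
    omega

lemma absorb {e p : ℕ} (he : 0 < e) (hp : p.Prime) (A B : NF)
    (hY : ∀ (G : Type) [Group G], (A * B).mem G → YY e G) (h : Le (Np p * B) B) : A * B = B := by
  refine NF.eq_of fun G _ => ⟨?_, le_mul A B G⟩
  rintro ⟨_, hG⟩
  by_contra hB
  have hne : res B.mem G ≠ ⊥ := fun h0 => hB (mem_of_res_bot B h0)
  have := (Subgroup.nontrivial_iff_ne_bot _).2 hne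
  obtain ⟨S, _, f, a, b, -⟩ := simple_quot (⊥ : Subgroup (res B.mem G)) bot_ne_top
  obtain ⟨t, t1, t2⟩ := Zc_big p e e hp he le_rfl
  have hS := star (hY _ (w3 A B a (A.ok.2.1 _ _ f b hG)
    (h _ (Np_le_mul p B _ (Zc_pg p e hp))))) p hp t e t1 t2
  have h1 := res_le (Np p) f b ⟨Finite.of_surjective f b, hS⟩
  have h2 : Np p * B = B := NF.eq_of fun G _ => ⟨h G, le_mul _ B G⟩
  have h3 := res_mul (Np p) B G
  rw [h2] at h3
  obtain ⟨y, hy⟩ := exists_ne (1 : S)
  obtain ⟨x, rfl⟩ := b y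
  have : (x : G) ∈ (res (Np p).mem (res B.mem G)).map (res B.mem G).subtype := h3 ▸ x.2
  obtain ⟨z, hz, hz'⟩ := this
  rw [Subtype.ext hz'] at hz
  exact hy (h1 hz)

lemma kk (B : NF) {X C : Type} [Group X] [Group C] (π : X →* C) (hπ : Surjective π)
    (hc : ∀ a b : π.ker, a * b = b * a) (h : B.mem (Wr π.ker C)) : B.mem X := by
  choose σ hσ using hπ
  let φ : X →* Wr π.ker C := MonoidHom.mk' (fun x => ⟨fun q =>
    ⟨(σ q)⁻¹ * x * σ ((π x)⁻¹ * q), by simp [MonoidHom.mem_ker, hσ]⟩, π x⟩) (fun a b => by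
      ext q
      · simp [mul_assoc]
      · simp)
  have hinj : Injective φ := by
    rw [← MonoidHom.ker_eq_bot_iff, eq_bot_iff]
    intro x hx
    have h1 : π x = 1 := congrArg RegularWreathProduct.right hx
    have h2 : (σ 1)⁻¹ * x * σ ((π x)⁻¹ * 1) = 1 :=
      congrArg Subtype.val (congrFun (congrArg RegularWreathProduct.left hx) 1)
    rw [h1, inv_one, one_mul] at h2
    show x = 1
    calc x = σ 1 * ((σ 1)⁻¹ * x * σ 1) * (σ 1)⁻¹ := by group
      _ = 1 := by rw [h2]; simp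
  refine B.ok.iso (MonoidHom.ofInjective hinj).symm
    (sub_step B.ok φ.range (RegularWreathProduct.rightHom).ker ?_ ?_)
  · intro a ha b hb
    have ha' : a.right = 1 := ha
    have hb' : b.right = 1 := hb
    ext q
    · simp only [RegularWreathProduct.mul_left, ha', hb', Pi.mul_apply, inv_one, one_mul]
      rw [hc]
    · simp [ha', hb']
  · have : φ.range ⊔ (RegularWreathProduct.rightHom).ker = ⊤ := by
      rw [eq_top_iff]
      intro w _
      have : w = φ (σ w.right) * ((φ (σ w.right))⁻¹ * w) := by group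
      rw [this]
      refine Subgroup.mul_mem_sup ⟨_, rfl⟩ ?_
      simp [MonoidHom.mem_ker, φ, hσ]
    rw [this]
    exact B.ok.iso Subgroup.topEquiv.symm h

lemma simple_card {p : ℕ} (hp : p.Prime) {S : Type} [Group S] [Finite S] (a : IsSimpleGroup S)
    (h : IsPGroup p S) : Nat.card S = p := by
  have := Fact.mk hp
  have := h.isNilpotent
  have hc := IsSimpleGroup.comm_iff_isSolvable.2 (inferInstance : Group.IsSolvable S)
  let _ : CommGroup S := { (inferInstance : Group S) with mul_comm := hc }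
  have h1 : (Nat.card S).Prime := IsSimpleGroup.prime_card
  obtain ⟨n, hn⟩ := IsPGroup.iff_card.1 h
  rw [hn] at h1 ⊢
  rw [h1.eq_one_of_pow, pow_one]

lemma Ap_le {p : ℕ} (hp : p.Prime) (K : NF) (h : ∀ (G : Type) [Group G], Nat.card G = p → K.mem G) :
    ∀ (G : Type) [Group G], (Ap p).mem G → K.mem G := by
  have := Fact.mk hp
  refine ind K.mem (Ap p).mem (Ap p).ok.1 (fun G _ N _ hG => (Ap p).ok.2.1 _ _ _
    (QuotientGroup.mk'_surjective N) hG) ?_
  rintro G _ ⟨_, hab, he⟩ hq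
  by_contra hK
  obtain ⟨M, hMn, hMb, hM⟩ := monolith ⟨K.mem, K.ok⟩ K.ne hK hq
  apply hK
  apply h
  have hn : ∀ H : Subgroup G, H.Normal := fun H => ⟨fun n hn g => by
    rw [hab g n]; simpa using hn⟩
  obtain ⟨⟨m, hm⟩, hm1⟩ := Subgroup.ne_bot_iff_exists_ne_one.1 hMb
  have hm1' : m ≠ 1 := fun h => hm1 (Subtype.ext h)
  have ht : Subgroup.zpowers m = ⊤ := by
    rw [eq_top_iff]
    intro g _
    by_cases hg : g = 1
    · rw [hg]; exact Subgroup.one_mem _
    have a1 : Subgroup.zpowers m ≤ Subgroup.zpowers g :=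
      (Subgroup.zpowers_le.2 hm).trans (hM _ (hn _) (by simpa using hg))
    have a2 : Subgroup.zpowers m = Subgroup.zpowers g := by
      refine Subgroup.eq_of_le_of_card_ge a1 ?_
      rw [Nat.card_zpowers, Nat.card_zpowers, orderOf_eq_prime (he g) hg,
        orderOf_eq_prime (he m) hm1']
    rw [a2]; exact Subgroup.mem_zpowers g
  rw [← orderOf_eq_prime (he m) hm1', ← Nat.card_zpowers, ht, Subgroup.card_top]

def KC (B : NF) (C : Type) [Group C] (hC : B.mem C) : NF where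
  mem := fun T _ => Finite T ∧ B.mem (Wr T C)
  ok := by
    have := B.ok.1 C hC
    refine ⟨fun G _ h => h.1, ?_, ?_⟩
    · rintro G Y _ _ f hf ⟨_, h⟩
      exact ⟨Finite.of_surjective f hf, B.ok.2.1 _ _ _ (wmap_surj C f hf) h⟩
    · rintro G _ N1 N2 _ _ hb ⟨f1, h1⟩ ⟨f2, h2⟩
      refine ⟨phi_fin.2.2 G N1 N2 hb f1 f2, B.ok.qr _ _ (MonoidHom.id _)
        (wmap_surj C _ (QuotientGroup.mk'_surjective N1))
        (wmap_surj C _ (QuotientGroup.mk'_surjective N2)) surjective_id h1 h2 ?_⟩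
      rintro x ⟨a, b⟩
      show x = 1
      ext q
      · have : x.left q ∈ N1 ⊓ N2 := ⟨(QuotientGroup.eq_one_iff _).1
          (congrFun (congrArg RegularWreathProduct.left a) q), (QuotientGroup.eq_one_iff _).1
          (congrFun (congrArg RegularWreathProduct.left b) q)⟩
        rw [hb] at this
        exact this
      · exact (congrArg RegularWreathProduct.right a :
          (wmap C (QuotientGroup.mk' N1) x).right = (1 : Wr (G ⧸ N1) C).right)
  ne := ⟨inferInstance, B.ok.qr RegularWreathProduct.rightHom RegularWreathProduct.rightHom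
    (MonoidHom.id _) (right_surj _ _) (right_surj _ _) surjective_id hC hC (by
      rintro x ⟨a, -⟩
      show x = 1
      ext q
      exact a)⟩

lemma mem_prod (B : NF) {X Y : Type} [Group X] [Group Y] (h1 : B.mem X) (h2 : B.mem Y) :
    B.mem (X × Y) := B.ok.qr (MonoidHom.fst _ _) (MonoidHom.snd _ _) (MonoidHom.id _)
      Prod.fst_surjective Prod.snd_surjective surjective_id h1 h2 (by
        rintro ⟨a, b⟩ ⟨h1, h2⟩
        exact Prod.ext h1 h2)

lemma l2 {p : ℕ} (hp : p.Prime) (B : NF) (W : Type) [Group W] (hW : B.mem W)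
    (h : ∀ (C : Type) [Group C], B.mem C → ∃ (S : Type) (_ : Group S), IsSimpleGroup S ∧
      IsPGroup p S ∧ B.mem (Wr S (C × W))) : Le (Np p * B) B := by
  have := Fact.mk hp
  refine ind B.mem (Np p * B).mem (Np p * B).ok.1 (fun G _ N _ hG => (Np p * B).ok.2.1 _ _ _
    (QuotientGroup.mk'_surjective N) hG) ?_
  rintro X _ ⟨_, -, hP⟩ hq
  by_contra hK
  obtain ⟨M, hMn, hMb, hM⟩ := monolith ⟨B.mem, B.ok⟩ B.ne hK hq
  have hMp : IsPGroup p M := hP.to_le (hM _ inferInstance fun h0 => hK (mem_of_res_bot B h0))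
  have := (Subgroup.nontrivial_iff_ne_bot _).2 hMb
  have hZ : M ≤ (Subgroup.center M).map M.subtype := by
    refine hM _ inferInstance fun h0 => ?_
    have := hMp.center_nontrivial
    obtain ⟨z, hz⟩ := exists_ne (1 : Subgroup.center M)
    have h1 : ((z : M) : X) ∈ (Subgroup.center M).map M.subtype := Subgroup.mem_map_of_mem _ z.2
    rw [h0] at h1
    exact hz (Subtype.ext (Subtype.ext h1))
  have hab : ∀ a ∈ M, ∀ b ∈ M, a * b = b * a := by
    intro a ha b hb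
    obtain ⟨z, hz, rfl⟩ := hZ hb
    exact congrArg Subtype.val (Subgroup.mem_center_iff.1 hz ⟨a, ha⟩)
  let E : Subgroup X :=
    { carrier := {x | x ∈ M ∧ x ^ p = 1}
      one_mem' := ⟨M.one_mem, one_pow _⟩
      mul_mem' := fun {a b} ha hb => ⟨M.mul_mem ha.1 hb.1, by
        rw [Commute.mul_pow (hab a ha.1 b hb.1), ha.2, hb.2, mul_one]⟩
      inv_mem' := fun {a} ha => ⟨M.inv_mem ha.1, by rw [inv_pow, ha.2, inv_one]⟩ }
  have hE : M ≤ E := by
    refine hM E ⟨fun n hn g => ⟨hMn.conj_mem _ hn.1 g, by rw [conj_pow, hn.2]; simp⟩⟩ fun h0 => ?_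
    obtain ⟨n, hn, hn'⟩ := hMp.nontrivial_iff_card.1 inferInstance
    obtain ⟨x, hx⟩ := exists_prime_orderOf_dvd_card' (G := M) p (by
      rw [hn']; exact dvd_pow_self p hn.ne')
    have h1 : (x : X) ∈ E := ⟨x.2, by
      have := pow_orderOf_eq_one x
      rw [hx] at this
      exact congrArg Subtype.val this⟩
    rw [h0] at h1
    have h2 : x = 1 := Subtype.ext h1
    rw [h2, orderOf_one] at hx
    exact hp.one_lt.ne hx
  obtain ⟨S, _, s1, s2, s3⟩ := h (X ⧸ M) (hq M hMb)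
  have hC := mem_prod B (hq M hMb) hW
  have := B.ok.1 W hW
  have hfS : Finite S := by
    have := B.ok.1 _ s3
    exact Finite.of_injective (fun s : S => (⟨fun _ => s, 1⟩ : Wr S ((X ⧸ M) × W))) fun a b hab =>
      congrFun (congrArg RegularWreathProduct.left hab) 1
  let π : X × W →* (X ⧸ M) × W := (QuotientGroup.mk' M).prodMap (MonoidHom.id W)
  have hπ : Surjective π := (QuotientGroup.mk'_surjective M).prodMap surjective_id
  have hk : ∀ a : π.ker, a.1.1 ∈ M ∧ a.1.2 = 1 := fun a =>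
    ⟨(QuotientGroup.eq_one_iff _).1 (congrArg Prod.fst a.2), congrArg Prod.snd a.2⟩
  have hA : (Ap p).mem π.ker := ⟨inferInstance, fun a b => Subtype.ext (Prod.ext
    (hab _ (hk a).1 _ (hk b).1) (by simp [(hk a).2, (hk b).2])), fun a => Subtype.ext (Prod.ext
    (hE (hk a).1).2 (by simp [(hk a).2]))⟩
  have h5 := Ap_le hp (KC B _ hC) (fun G _ hG => (KC B _ hC).ok.iso
    (mulEquivOfPrimeCardEq (p := p) (simple_card hp s1 s2) hG) ⟨hfS, s3⟩) _ hA
  exact hK (B.ok.2.1 _ _ (MonoidHom.fst X W) Prod.fst_surjective (kk B π hπ hA.2.1 h5.2))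

end Pool.Agent.H.MP_58728c_al
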