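import Pool.Agent.H.MP_58728c_al.B

set_option autoImplicit false

namespace Pool.Agent.H.MP_58728c_al

open Function Pointwise Pool.Agent.H.MP_4f47f1_al Pool.Agent.H.MP_44c8f1_al

def big (e p : ℕ) (B : NF) : Prop :=
  ∃ (C : Type) (_ : Group C), B.mem C ∧ ∃ (t : C) (k : ℕ), t ^ p ^ k = 1 ∧ t ^ e ≠ 1

def LY (e : ℕ) (F : NF) : Prop := ∀ (G : Type) [Group G], F.mem G → YY e G

lemma l3 {e p : ℕ} (hp : p.Prime) (A B : NF) (hY : LY e (A * B)) (hb : big e p B)
    (h : ¬ Le (Np p * B) B) : Le A (Np p) := by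
  obtain ⟨W, _, hW, t, k, t1, t2⟩ := hb
  obtain ⟨C, _, hC, hn⟩ : ∃ (C : Type) (_ : Group C), B.mem C ∧ ∀ (S : Type) (_ : Group S),
      IsSimpleGroup S → IsPGroup p S → ¬ B.mem (Wr S (C × W)) := by
    by_contra hc
    push Not at hc
    exact h (l2 hp B W hW fun C _ hC => hc C _ hC)
  have u1 : ((1, t) : C × W) ^ p ^ k = 1 := by simp [t1]
  have u2 : ((1, t) : C × W) ^ e ≠ 1 := by simp [t2]
  intro T _ hT
  refine ⟨A.ok.1 T hT, star (hY _ (w1 A B hT (mem_prod B hC hW) fun S _ f a _ c => ?_)) p hp _ k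
    u1 u2⟩
  exact hn S _ a (star (hY _ (le_mul A B _ c)) p hp _ k u1 u2) c

lemma l4 (l : List NF) (hl : ∀ A ∈ l, A ≠ 1) :
    ∃ (C : Type) (_ : Group C), l.prod.mem C ∧ ∃ x : C, 2 ^ l.length ≤ orderOf x := by
  classical
  induction l with
  | nil => exact ⟨PUnit, _, NF.ne _, 1, (orderOf_one (G := PUnit)).ge⟩
  | cons A l ih =>
    obtain ⟨C, _, hC, x, hx⟩ := ih fun B hB => hl B (List.mem_cons_of_mem _ hB)
    obtain ⟨S, _, s1, s2⟩ := exists_simple A (hl A List.mem_cons_self)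
    obtain ⟨s, hs⟩ := exists_ne (1 : S)
    have h1 := w3 A l.prod s1 s2 hC
    let y : Wr S C := ⟨Pi.mulSingle 1 s, x⟩
    refine ⟨Wr S C, _, by rw [List.prod_cons]; exact h1, y, ?_⟩
    have := h1.1
    have hr : ∀ k : ℕ, (y ^ k).right = x ^ k := fun k => map_pow RegularWreathProduct.rightHom y k
    have key : ∀ k : ℕ, k < orderOf x → (y ^ (k + 1)).left 1 = s := by
      intro k
      induction k with
      | zero => intro _; simp [y]
      | succ k ih =>
        intro hk
        rw [pow_succ, RegularWreathProduct.mul_left, Pi.mul_apply, ih (by omega), hr]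
        have : (x ^ (k + 1))⁻¹ * 1 ≠ 1 := by
          simpa using pow_ne_one_of_lt_orderOf (by omega) hk
        simp only [y]
        rw [Pi.mulSingle_eq_of_ne this, mul_one]
    have h0 : 0 < orderOf x := lt_of_lt_of_le (by positivity) hx
    have h2 : orderOf x ∣ orderOf y := orderOf_map_dvd RegularWreathProduct.rightHom y
    have h3 : orderOf y ≠ orderOf x := by
      intro h
      have h4 := key (orderOf x - 1) (by omega)
      rw [show orderOf x - 1 + 1 = orderOf y by omega, pow_orderOf_eq_one] at h4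
      exact hs h4.symm
    obtain ⟨m, hm⟩ := h2
    have h5 : 0 < orderOf y := orderOf_pos y
    have h6 : 2 ≤ m := by
      rcases m with _ | _ | m
      · omega
      · omega
      · omega
    rw [List.length_cons, pow_succ, hm]
    exact Nat.mul_le_mul hx h6

lemma big_of_len {e : ℕ} (he : 0 < e) (l : List NF) (hl : ∀ A ∈ l, A ≠ 1) (h : e ≤ l.length) :
    ∃ p, p.Prime ∧ big e p l.prod := by
  obtain ⟨C, _, hC, x, hx⟩ := l4 l hl
  have h1 : ¬ orderOf x ∣ e := fun hd => by
    have := Nat.le_of_dvd he hd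
    have : l.length < 2 ^ l.length := Nat.lt_two_pow_self
    omega
  rw [Nat.dvd_iff_prime_pow_dvd_dvd] at h1
  push Not at h1
  obtain ⟨p, k, hp, a, b⟩ := h1
  have h0 : orderOf x ≠ 0 := (lt_of_lt_of_le (by positivity) hx).ne'
  have h2 := orderOf_pow_orderOf_div h0 a
  refine ⟨p, hp, C, _, hC, x ^ (orderOf x / p ^ k), k, ?_, fun h => b ?_⟩
  · have := pow_orderOf_eq_one (x ^ (orderOf x / p ^ k))
    rwa [h2] at this
  · rw [← h2]; exact orderOf_dvd_of_pow_eq_one h

lemma pre_le {e p : ℕ} (he : 0 < e) (hp : p.Prime) (F : NF) (hY : LY e F) (hF : ¬ Le (Np p * F) F)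
    (B : NF) (hb : big e p B) (l : List NF) : ∀ A0 : NF, F = A0 * (l.prod * B) →
      ∀ A ∈ l, Le A (Np p) := by
  induction l with
  | nil => simp
  | cons A l ih =>
    intro A0 h X hX
    rw [List.prod_cons, mul_assoc] at h
    rcases List.mem_cons.1 hX with rfl | hX
    · refine l3 (e := e) hp X (l.prod * B) (fun G _ hG => hY G (h ▸ le_mul A0 _ G hG)) ?_ fun hle => ?_
      · obtain ⟨C, _, hC, ht⟩ := hb
        exact ⟨C, _, le_mul _ _ _ hC, ht⟩
      · rw [← mul_assoc] at h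
        rw [absorb he hp _ _ (h ▸ hY) hle] at h
        exact hF (h ▸ hle)
    · exact ih (A0 * A) (by rw [mul_assoc]; exact h) X hX

lemma card_p {p : ℕ} (hp : p.Prime) (A : NF) (h1 : A ≠ 1) (h2 : Le A (Np p)) :
    ∀ (G : Type) [Group G], Nat.card G = p → A.mem G := by
  have := Fact.mk hp
  obtain ⟨S, _, s1, s2⟩ := exists_simple A h1
  have := A.ok.1 S s2
  exact fun G _ hG => A.ok.iso (mulEquivOfPrimeCardEq (p := p) (simple_card hp s1 (h2 S s2).2) hG) s2

lemma l5 {p : ℕ} (hp : p.Prime) (l : List NF) (hl : ∀ A ∈ l, A ≠ 1 ∧ Le A (Np p)) :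
    Le l.prod (Np p) ∧ ∀ (P : Type) [Group P], (Np p).mem P → Nat.card P ≤ p ^ l.length →
      l.prod.mem P := by
  induction l using List.reverseRecOn with
  | nil =>
    refine ⟨fun G _ h => have : Subsingleton G := h; NF.triv _ G, fun P _ hP h => ?_⟩
    have := hP.1
    exact Finite.card_le_one_iff_subsingleton.1 (by simpa using h)
  | append_singleton l A ih =>
    have ih' := ih fun B hB => hl B (List.mem_append_left _ hB)
    have hA := hl A (by simp)
    rw [List.prod_append, List.prod_singleton]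
    refine ⟨mul_le_Np ih'.1 hA.2, fun P _ hP h => ?_⟩
    have := hP.1
    rcases subsingleton_or_nontrivial P with _ | _
    · exact NF.triv _ P
    obtain ⟨S, _, f, a, b, -⟩ := simple_quot (⊥ : Subgroup P) bot_ne_top
    have := Finite.of_surjective f b
    have hS := simple_card hp a (hP.2.of_surjective f b)
    have h1 := Subgroup.card_le_of_le (res_le A f b (card_p hp A hA.1 hA.2 S hS))
    refine ⟨inferInstance, ih'.2 _ ⟨inferInstance, hP.2.to_subgroup _⟩ (h1.trans ?_)⟩
    have h2 := Subgroup.card_eq_card_quotient_mul_card_subgroup f.ker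
    rw [Nat.card_congr (QuotientGroup.quotientKerEquivOfSurjective f b).toEquiv, hS] at h2
    rw [h2, List.length_append, List.length_singleton, pow_succ, mul_comm] at h
    exact Nat.le_of_mul_le_mul_right h hp.pos

lemma no_two {e p q : ℕ} (he : 0 < e) (hp : p.Prime) (hq : q.Prime) (hne : p ≠ q) (A B : NF)
    (hY : LY e (A * B)) (h1 : A.mem (Zc q)) (k : ℕ) (hk : e ≤ k) (h2 : B.mem (Zc (p ^ k))) :
    False := by
  have := Fact.mk hp
  have := Fact.mk hq
  obtain ⟨t, t1, t2⟩ := Zc_big p k e hp he hk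
  have hs : IsSimpleGroup (Zc q) := isSimpleGroup_of_prime_card (p := q) (by simp)
  have h3 := star (hY _ (w3 A B hs h1 h2)) p hp t k t1 t2
  have h4 := simple_card hp hs h3
  exact hne (by simpa using h4.symm)

lemma dich {e : ℕ} (he : 0 < e) (F : NF) (hY : LY e F) : (∃ p, p.Prime ∧ Le (Np p * F) F) ∨
    ∃ n, ∀ l : List NF, (∀ A ∈ l, A ≠ 1) → l.prod = F → l.length ≤ n := by
  by_contra hcon
  push Not at hcon
  obtain ⟨c1, c2⟩ := hcon
  have H : ∀ k, ∃ p, p.Prime ∧ ∃ A B : NF, F = A * B ∧ Le A (Np p) ∧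
      ∀ (P : Type) [Group P], (Np p).mem P → Nat.card P ≤ p ^ k → A.mem P := by
    intro k
    obtain ⟨l, l1, l2, l3⟩ := c2 (k + e)
    obtain ⟨p, hp, hb⟩ := big_of_len he (l.drop k) (fun A hA => l1 A (List.mem_of_mem_drop hA))
      (by rw [List.length_drop]; omega)
    have hF : F = (l.take k).prod * (l.drop k).prod := by rw [List.prod_take_mul_prod_drop, l2]
    have h1 := pre_le he hp F hY (c1 p hp) _ hb (l.take k) 1 (by rw [one_mul]; exact hF)
    have h2 := l5 hp (l.take k) fun A hA => ⟨l1 A (List.mem_of_mem_take hA), h1 A hA⟩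
    refine ⟨p, hp, _, _, hF, h2.1, fun P _ hP h => h2.2 P hP ?_⟩
    rwa [List.length_take, min_eq_left (by omega)]
  obtain ⟨q, hq, A0, B0, e0, a0, b0⟩ := H 1
  apply c1 q hq
  intro G _ hG
  obtain ⟨p, hp, A, B, e1, a1, b1⟩ := H (Nat.card G + e)
  have := hG.1
  by_cases hpq : p = q
  · subst hpq
    rw [e1, ← mul_assoc] at hG
    rw [e1]
    refine ⟨inferInstance, b1 _ (mul_le_Np (fun _ _ h => h) a1 _ hG.2) ?_⟩
    have h1 : Nat.card G + e < p ^ (Nat.card G + e) := Nat.lt_pow_self hp.one_lt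
    have h2 := Subgroup.card_le_card_group (res B.mem G)
    omega
  · exfalso
    have := Fact.mk hp
    have := Fact.mk hq
    set k := Nat.card G + e
    have z1 := Zc_pg p k hp
    have := z1.1
    have z2 : F.mem (Zc (p ^ k)) := by
      rw [e1]
      refine ⟨inferInstance, b1 _ ⟨inferInstance, z1.2.to_subgroup _⟩ ?_⟩
      have h2 := Subgroup.card_le_card_group (res B.mem (Zc (p ^ k)))
      simpa using h2
    rw [e0] at z2
    have z3 : res B0.mem (Zc (p ^ k)) = ⊥ := by
      have := IsPGroup.disjoint_of_ne p q hpq _ _ (z1.2.to_subgroup (res B0.mem (Zc (p ^ k))))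
        (a0 _ z2.2).2
      simpa using this
    refine no_two he hp hq hpq A0 B0 (e0 ▸ hY) (b0 _ ?_ (by simp)) k (by omega)
      (mem_of_res_bot B0 z3)
    have := Zc_pg q 1 hq
    rwa [pow_one] at this

def WI (A : NF) : Prop := ¬ ∃ X Y : NF, X ≠ A ∧ Y ≠ A ∧ A = X * Y

lemma fact_bdd (F : NF) (h1 : F ≠ 1) (n : ℕ)
    (h : ∀ l : List NF, (∀ A ∈ l, A ≠ 1) → l.prod = F → l.length ≤ n) :
    ∃ l : List NF, l ≠ [] ∧ (∀ A ∈ l, WI A) ∧ l.prod = F := by
  have key : ∀ d, ∀ l : List NF, (∀ A ∈ l, A ≠ 1) → l.prod = F → n ≤ l.length + d →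
      ∃ l : List NF, l ≠ [] ∧ (∀ A ∈ l, WI A) ∧ l.prod = F := by
    intro d
    induction d using Nat.strong_induction_on with
    | _ d ih =>
      intro l l1 l2 l3
      by_cases hw : ∀ A ∈ l, WI A
      · exact ⟨l, by rintro rfl; exact h1 l2.symm, hw, l2⟩
      push Not at hw
      obtain ⟨A, hA, hA'⟩ := hw
      obtain ⟨X, Y, a, b, c⟩ := not_not.1 hA'
      obtain ⟨s, t, rfl⟩ := List.append_of_mem hA
      have m1 : ∀ B ∈ s ++ X :: Y :: t, B ≠ 1 := by
        intro B hB
        simp only [List.mem_append, List.mem_cons] at hB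
        rcases hB with hB | rfl | rfl | hB
        · exact l1 B (by simp [hB])
        · rintro rfl; exact b (by rw [c, one_mul])
        · rintro rfl; exact a (by rw [c, mul_one])
        · exact l1 B (by simp [hB])
      have m2 : (s ++ X :: Y :: t).prod = F := by
        rw [← l2, c]; simp [mul_assoc]
      have m3 := h _ m1 m2
      simp only [List.length_append, List.length_cons] at m3 l3
      exact ih (d - 1) (by omega) _ m1 m2 (by simp only [List.length_append, List.length_cons]; omega)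
  exact key n [F] (by simpa using h1) (by simp) (by omega)

lemma WI_Np {p : ℕ} (hp : p.Prime) : WI (Np p) := by
  rintro ⟨A, B, a, b, c⟩
  have hB : Le B (Np p) := c ▸ le_mul A B
  have h : ¬ Le (Np p * B) B := fun hle =>
    b (NF.eq_of fun G _ => ⟨hB G, fun hG => hle G (Np_le_mul p B G hG)⟩)
  obtain ⟨C, _, hC, hn⟩ : ∃ (C : Type) (_ : Group C), B.mem C ∧ ∀ (S : Type) (_ : Group S),
      IsSimpleGroup S → IsPGroup p S → ¬ B.mem (Wr S (C × PUnit)) := by
    by_contra hc
    push Not at hc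
    exact h (l2 hp B PUnit B.ne fun C _ hC => hc C _ hC)
  have hC' := mem_prod B hC B.ne
  have sub : ∀ (S : Type) [Group S], (Np p).mem (Wr S (C × PUnit)) → IsPGroup p S := by
    intro S _ hS
    exact hS.2.of_injective (MonoidHom.mk' (fun s : S => (⟨fun _ => s, 1⟩ : Wr S (C × PUnit)))
      (fun a b => by ext <;> simp)) fun a b hab => congrFun (congrArg RegularWreathProduct.left hab) 1
  refine a (NF.eq_of fun T _ => ⟨fun hT => ⟨A.ok.1 T hT, sub T ?_⟩, fun hT => ?_⟩)
  · rw [c]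
    exact w1 A B hT hC' fun S _ f s1 _ s3 => hn S _ s1 (sub S (hB _ s3)) s3
  · have := hT.1
    have := B.ok.1 _ hC'
    refine w2 A B (c ▸ ?_) hC' fun S _ f s1 _ s3 => hn S _ s1 (sub S (hB _ s3)) s3
    have := Fact.mk hp
    obtain ⟨i, hi⟩ := IsPGroup.iff_card.1 hT.2
    obtain ⟨j, hj⟩ := IsPGroup.iff_card.1 (hB _ hC').2
    exact ⟨inferInstance, IsPGroup.of_card (n := i * Nat.card (C × PUnit) + j) (by
      rw [RegularWreathProduct.card, hi, pow_add, pow_mul, ← hj])⟩

def RR' (e p : ℕ) (hp : p.Prime) (F : NF) : NF where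
  mem := fun G _ => F.mem G ∧ ∀ (t : G) (k : ℕ), t ^ p ^ k = 1 → t ^ e = 1
  ok := by
    refine ⟨fun G _ h => F.ok.1 G h.1, ?_, ?_⟩
    · rintro G Y _ _ f hf ⟨h1, h⟩
      have := F.ok.1 G h1
      refine ⟨F.ok.2.1 _ _ f hf h1, fun y k hy => ?_⟩
      obtain ⟨x, j, rfl, hx⟩ := lift_pelt f hf p hp y k hy
      rw [← map_pow, h x j hx, map_one]
    · rintro G _ N1 N2 _ _ hb ⟨f1, h1⟩ ⟨f2, h2⟩
      refine ⟨F.ok.2.2 G N1 N2 hb f1 f2, fun t k ht => ?_⟩
      have : t ^ e ∈ N1 ⊓ N2 := by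
        constructor
        · apply (QuotientGroup.eq_one_iff _).1
          rw [QuotientGroup.mk_pow]
          exact h1 (t : G ⧸ N1) k (by rw [← QuotientGroup.mk_pow, ht]; rfl)
        · apply (QuotientGroup.eq_one_iff _).1
          rw [QuotientGroup.mk_pow]
          exact h2 (t : G ⧸ N2) k (by rw [← QuotientGroup.mk_pow, ht]; rfl)
      rw [hb] at this
      exact this
  ne := ⟨F.ne, fun _ _ _ => rfl⟩

theorem main {e : ℕ} (he : 0 < e) (F : NF) (hY : LY e F) (h1 : F ≠ 1) :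
    ∃ l : List NF, l ≠ [] ∧ (∀ A ∈ l, WI A) ∧ l.prod = F := by
  rcases dich he F hY with ⟨p, hp, hF⟩ | ⟨n, hn⟩
  swap
  · exact fact_bdd F h1 n hn
  set R := RR' e p hp F with hR
  have hFR : F = Np p * R := by
    refine NF.eq_of fun G _ => ⟨fun hG => ?_, fun hG => hF G ?_⟩
    · obtain ⟨_, h⟩ := hY G hG
      obtain ⟨P, a1, a2, a3⟩ := h p hp
      have : R.mem (G ⧸ P) := ⟨F.ok.2.1 _ _ _ (QuotientGroup.mk'_surjective P) hG, fun y k hy => by
        obtain ⟨x, j, rfl, hx⟩ := lift_pelt _ (QuotientGroup.mk'_surjective P) p hp y k hy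
        rw [← map_pow]
        exact (QuotientGroup.eq_one_iff _).2 (a3 x j hx)⟩
      have h2 := res_le R _ (QuotientGroup.mk'_surjective P) this
      rw [QuotientGroup.ker_mk'] at h2
      exact ⟨inferInstance, inferInstance, a2.to_le h2⟩
    · obtain ⟨_, -, h⟩ := hG
      have h2 := res_le F _ (QuotientGroup.mk'_surjective _) (res_mem R G).1
      rw [QuotientGroup.ker_mk'] at h2
      exact ⟨inferInstance, inferInstance, h.to_le h2⟩
  by_cases hR1 : R = 1
  · exact ⟨[Np p], by simp, by simpa using WI_Np hp, by rw [hFR, hR1]; simp⟩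
  rcases dich he R (fun G _ hG => hY G hG.1) with ⟨q, hq, hle⟩ | ⟨n, hn⟩
  · exfalso
    have z := hle _ (Np_le_mul q R _ (Zc_pg q e hq))
    by_cases hpq : q = p
    · subst hpq
      obtain ⟨t, t1, t2⟩ := Zc_big q e e hq he le_rfl
      exact t2 (z.2 t e t1)
    · refine no_two he hq hp hpq (Np p) R (hFR ▸ hY) ?_ e le_rfl z
      have := Zc_pg p 1 hp
      rwa [pow_one] at this
  · obtain ⟨l, -, l2, l3⟩ := fact_bdd R hR1 n hn
    refine ⟨Np p :: l, by simp, ?_, by rw [List.prod_cons, l3, ← hFR]⟩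
    intro A hA
    rcases List.mem_cons.1 hA with rfl | hA
    · exact WI_Np hp
    · exact l2 A hA

end Pool.Agent.H.MP_58728c_al
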